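import Mathlib
import Pool.Agent.Helper21.CU.St

set_option autoImplicit false

namespace Pool.Agent.Helper62.CU

open Pool.Agent.Helper21.CU
open Finset

lemma mem_R (k : ℤ) (s v : ℕ) : v ∈ R k s ↔ v < s ∧ (s : ℤ) ∣ (v : ℤ) ^ 3 - k := by
  unfold R
  rw [Finset.mem_filter, Finset.mem_range]

lemma pow_dvd_of (p : ℤ) (hp : Prime p) (e : ℕ) : ∀ (j : ℕ) (a M : ℤ), ¬ p ^ (e + 1) ∣ M →
    p ^ j ∣ a * M → p ^ (j - e) ∣ a := by
  induction e with
  | zero =>
    intro j a M hM h
    rw [zero_add, pow_one] at hM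
    rw [mul_comm] at h
    exact hp.pow_dvd_of_dvd_mul_left j hM h
  | succ e ih =>
    intro j a M hM h
    by_cases hpM : p ∣ M
    · obtain ⟨M', rfl⟩ := hpM
      rcases j with _ | j
      · simp
      · have h1 : ¬ p ^ (e + 1) ∣ M' := by
          intro h2
          apply hM
          rw [pow_succ']
          exact mul_dvd_mul_left p h2
        have h2 : p ^ j ∣ a * M' := by
          have h3 : p * p ^ j ∣ p * (a * M') := by
            have h4 : p * (a * M') = a * (p * M') := by ring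
            rw [h4, ← pow_succ']
            exact h
          exact (mul_dvd_mul_iff_left hp.ne_zero).1 h3
        have h3 := ih j a M' h1 h2
        have h4 : j + 1 - (e + 1) = j - e := by omega
        rw [h4]
        exact h3
    · have h1 : p ^ j ∣ a := by
        rw [mul_comm] at h
        exact hp.pow_dvd_of_dvd_mul_left j hpM h
      exact (pow_dvd_pow p (Nat.sub_le j (e + 1))).trans h1

theorem hPP : StPP := by
  intro k hk p j hp hj
  have hpZ : Prime (p : ℤ) := Nat.prime_iff_prime_int.1 hp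
  have hfact : Fact p.Prime := ⟨hp⟩
  refine ⟨fun hpk => ?_, fun hpk => ?_⟩
  · have hp3 : ¬ (p : ℤ) ∣ 3 := fun h => hpk (h.mul_right k)
    have hpk' : ¬ (p : ℤ) ∣ k := fun h => hpk (h.mul_left 3)
    constructor
    · refine Finset.card_le_card_of_injOn (fun v => v % p) ?_ ?_
      · intro v hv
        rw [Finset.mem_coe, mem_R] at hv
        change v % p ∈ R k p
        rw [mem_R]
        refine ⟨Nat.mod_lt _ hp.pos, ?_⟩
        have h1 : (p : ℤ) ∣ (v : ℤ) ^ 3 - k := by
          refine dvd_trans ?_ hv.2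
          push_cast
          exact dvd_pow_self _ (by omega)
        have h2 : (p : ℤ) ∣ (v : ℤ) - ((v % p : ℕ) : ℤ) := by
          refine ⟨((v / p : ℕ) : ℤ), ?_⟩
          have h3 := Nat.div_add_mod v p
          have h4 : (v : ℤ) = (p : ℤ) * ((v / p : ℕ) : ℤ) + ((v % p : ℕ) : ℤ) := by
            exact_mod_cast h3.symm
          linarith
        have h5 : ((v % p : ℕ) : ℤ) ^ 3 - k = ((v : ℤ) ^ 3 - k) - ((v : ℤ) - ((v % p : ℕ) : ℤ)) *
            ((v : ℤ) ^ 2 + (v : ℤ) * ((v % p : ℕ) : ℤ) + ((v % p : ℕ) : ℤ) ^ 2) := by ring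
        rw [h5]
        exact dvd_sub h1 (h2.mul_right _)
      · intro v₁ hv₁ v₂ hv₂ hmod
        rw [Finset.mem_coe, mem_R] at hv₁ hv₂
        have hmod' : v₁ % p = v₂ % p := hmod
        have h2 : (p : ℤ) ∣ (v₂ : ℤ) - v₁ := by
          have h3 : v₁ ≡ v₂ [MOD p] := hmod'
          exact (Nat.modEq_iff_dvd.1 h3)
        have h1 : (p : ℤ) ∣ (v₁ : ℤ) ^ 3 - k := by
          refine dvd_trans ?_ hv₁.2
          push_cast
          exact dvd_pow_self _ (by omega)
        have hv : ¬ (p : ℤ) ∣ (v₁ : ℤ) := by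
          intro h3
          apply hpk'
          have h4 : k = (v₁ : ℤ) ^ 3 - ((v₁ : ℤ) ^ 3 - k) := by ring
          rw [h4]
          exact dvd_sub (dvd_pow h3 (by norm_num)) h1
        have hM : ¬ (p : ℤ) ∣ (v₁ : ℤ) ^ 2 + v₁ * v₂ + (v₂ : ℤ) ^ 2 := by
          intro h3
          have h4 : (3 : ℤ) * (v₁ : ℤ) ^ 2 = ((v₁ : ℤ) ^ 2 + v₁ * v₂ + (v₂ : ℤ) ^ 2) -
              ((v₂ : ℤ) - v₁) * (2 * v₁ + v₂) := by ring
          have h5 : (p : ℤ) ∣ 3 * (v₁ : ℤ) ^ 2 := by
            rw [h4]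
            exact dvd_sub h3 (h2.mul_right _)
          rcases hpZ.dvd_or_dvd h5 with h6 | h6
          · exact hp3 h6
          · exact hv (hpZ.dvd_of_dvd_pow h6)
        have h3 : ((p : ℤ)) ^ j ∣ ((v₁ : ℤ) ^ 2 + v₁ * v₂ + (v₂ : ℤ) ^ 2) * ((v₁ : ℤ) - v₂) := by
          have h4 : ((v₁ : ℤ) ^ 2 + v₁ * v₂ + (v₂ : ℤ) ^ 2) * ((v₁ : ℤ) - v₂) =
              ((v₁ : ℤ) ^ 3 - k) - ((v₂ : ℤ) ^ 3 - k) := by ring
          rw [h4]
          have h5 := dvd_sub hv₁.2 hv₂.2
          push_cast at h5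
          exact h5
        have h4 : ((p : ℤ)) ^ j ∣ (v₁ : ℤ) - v₂ := hpZ.pow_dvd_of_dvd_mul_left j hM h3
        have h5 : v₂ ≡ v₁ [MOD p ^ j] := by
          rw [Nat.modEq_iff_dvd]
          push_cast
          exact h4
        exact (Nat.ModEq.eq_of_lt_of_lt h5 hv₂.1 hv₁.1).symm
    · have h1 : (R k p).card ≤ (Polynomial.nthRoots 3 ((k : ℤ) : ZMod p)).toFinset.card := by
        refine Finset.card_le_card_of_injOn (fun v => (v : ZMod p)) ?_ ?_
        · intro v hv
          rw [Finset.mem_coe, mem_R] at hv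
          change (v : ZMod p) ∈ ((Polynomial.nthRoots 3 ((k : ℤ) : ZMod p)).toFinset : Set (ZMod p))
          rw [Finset.mem_coe, Multiset.mem_toFinset, Polynomial.mem_nthRoots (by norm_num)]
          have h2 := (ZMod.intCast_zmod_eq_zero_iff_dvd _ p).2 hv.2
          push_cast at h2
          exact sub_eq_zero.1 h2
        · intro v₁ hv₁ v₂ hv₂ h
          rw [Finset.mem_coe, mem_R] at hv₁ hv₂
          have h2 : (v₁ : ZMod p) = (v₂ : ZMod p) := h
          rw [ZMod.natCast_eq_natCast_iff] at h2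
          exact Nat.ModEq.eq_of_lt_of_lt h2 hv₁.1 hv₂.1
      exact h1.trans ((Multiset.toFinset_card_le _).trans (Polynomial.card_nthRoots 3 _))
  · -- `p ∣ 3 k`
    obtain ⟨m, hm⟩ : ∃ m : ℕ, m = 3 * k.natAbs := ⟨_, rfl⟩
    have hm0 : m ≠ 0 := by
      rw [hm]
      have := Int.natAbs_ne_zero.2 hk
      omega
    have hmk : ∀ q : ℕ, (q : ℤ) ∣ 3 * k ↔ q ∣ m := by
      intro q
      rw [hm, ← Int.natCast_dvd_natCast]
      push_cast
      rw [show (3 : ℤ) * |k| = |3 * k| by rw [abs_mul]; norm_num, dvd_abs]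
    obtain ⟨e, he⟩ : ∃ e : ℕ, e = m.factorization p := ⟨_, rfl⟩
    have he1 : p ^ e ∣ m := by rw [he]; exact Nat.ordProj_dvd m p
    have he2 : ¬ p ^ (e + 1) ∣ m := by
      rw [he]
      exact Nat.pow_succ_factorization_not_dvd hm0 hp
    have hpm : p ∣ m := (hmk p).1 hpk
    have hpe : p ^ e ≤ m := Nat.le_of_dvd (Nat.pos_of_ne_zero hm0) he1
    have hpl : p ≤ m := Nat.le_of_dvd (Nat.pos_of_ne_zero hm0) hpm
    have hbound : p ^ (2 * e + 1) ≤ m ^ 3 := by
      calc p ^ (2 * e + 1) = p ^ e * p ^ e * p := by ring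
        _ ≤ m * m * m := Nat.mul_le_mul (Nat.mul_le_mul hpe hpe) hpl
        _ = m ^ 3 := by ring
    rw [← hm]
    rcases le_or_gt j (2 * e + 1) with hje | hje
    · calc (R k (p ^ j)).card ≤ (range (p ^ j)).card := Finset.card_filter_le _ _
        _ = p ^ j := Finset.card_range _
        _ ≤ p ^ (2 * e + 1) := Nat.pow_le_pow_right hp.pos hje
        _ ≤ m ^ 3 := hbound
    · have hcard : (R k (p ^ j)).card ≤ ((range (p ^ (e + 1))) ×ˢ (range (p ^ e))).card := by
        refine Finset.card_le_card_of_injOn (fun v => (v % p ^ (e + 1), v / p ^ (j - e))) ?_ ?_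
        · intro v hv
          rw [Finset.mem_coe, mem_R] at hv
          change (v % p ^ (e + 1), v / p ^ (j - e)) ∈
            (((range (p ^ (e + 1))) ×ˢ (range (p ^ e)) : Finset (ℕ × ℕ)) : Set (ℕ × ℕ))
          rw [Finset.mem_coe, Finset.mem_product, Finset.mem_range, Finset.mem_range]
          refine ⟨Nat.mod_lt _ (pow_pos hp.pos _), ?_⟩
          rw [Nat.div_lt_iff_lt_mul (pow_pos hp.pos _), ← pow_add]
          have h1 : e + (j - e) = j := by omega
          rw [h1]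
          exact hv.1
        · intro v₁ hv₁ v₂ hv₂ hEq
          rw [Finset.mem_coe, mem_R] at hv₁ hv₂
          have hEq' : (v₁ % p ^ (e + 1), v₁ / p ^ (j - e)) = (v₂ % p ^ (e + 1), v₂ / p ^ (j - e)) :=
            hEq
          rw [Prod.mk.injEq] at hEq'
          obtain ⟨hmod, hdiv⟩ := hEq'
          have hA : ∀ v : ℕ, ((p ^ j : ℕ) : ℤ) ∣ (v : ℤ) ^ 3 - k →
              ¬ ((p : ℤ)) ^ (e + 1) ∣ 3 * (v : ℤ) ^ 2 := by
            intro v hv h
            apply he2
            rw [← hmk]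
            push_cast
            have h1 : (p : ℤ) ^ (e + 1) ∣ (v : ℤ) ^ 3 - k := by
              refine dvd_trans ?_ hv
              push_cast
              exact pow_dvd_pow _ (by omega)
            have h2 : (3 : ℤ) * k = 3 * (v : ℤ) ^ 2 * v - 3 * ((v : ℤ) ^ 3 - k) := by ring
            rw [h2]
            exact dvd_sub (h.mul_right _) (h1.mul_left _)
          have h2 : ((p : ℤ)) ^ (e + 1) ∣ (v₂ : ℤ) - v₁ := by
            have h3 : v₁ ≡ v₂ [MOD p ^ (e + 1)] := hmod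
            have h4 := Nat.modEq_iff_dvd.1 h3
            push_cast at h4
            exact h4
          have hM : ¬ ((p : ℤ)) ^ (e + 1) ∣ (v₁ : ℤ) ^ 2 + v₁ * v₂ + (v₂ : ℤ) ^ 2 := by
            intro h3
            apply hA v₁ hv₁.2
            have h4 : (3 : ℤ) * (v₁ : ℤ) ^ 2 = ((v₁ : ℤ) ^ 2 + v₁ * v₂ + (v₂ : ℤ) ^ 2) -
                ((v₂ : ℤ) - v₁) * (2 * v₁ + v₂) := by ring
            rw [h4]
            exact dvd_sub h3 (h2.mul_right _)
          have h3 : ((p : ℤ)) ^ j ∣ ((v₁ : ℤ) - v₂) *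
              ((v₁ : ℤ) ^ 2 + v₁ * v₂ + (v₂ : ℤ) ^ 2) := by
            have h4 : ((v₁ : ℤ) - v₂) * ((v₁ : ℤ) ^ 2 + v₁ * v₂ + (v₂ : ℤ) ^ 2) =
                ((v₁ : ℤ) ^ 3 - k) - ((v₂ : ℤ) ^ 3 - k) := by ring
            rw [h4]
            have h5 := dvd_sub hv₁.2 hv₂.2
            push_cast at h5
            exact h5
          have h4 : ((p : ℤ)) ^ (j - e) ∣ (v₁ : ℤ) - v₂ := pow_dvd_of p hpZ e j _ _ hM h3
          have h5 : v₂ ≡ v₁ [MOD p ^ (j - e)] := by
            rw [Nat.modEq_iff_dvd]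
            push_cast
            exact h4
          have h6 := Nat.div_add_mod v₁ (p ^ (j - e))
          have h7 := Nat.div_add_mod v₂ (p ^ (j - e))
          have h8 : v₂ % p ^ (j - e) = v₁ % p ^ (j - e) := h5
          rw [← h6, ← h7, hdiv, h8]
      rw [Finset.card_product, Finset.card_range, Finset.card_range, ← pow_add] at hcard
      have h1 : e + 1 + e = 2 * e + 1 := by ring
      rw [h1] at hcard
      exact hcard.trans hbound

end Pool.Agent.Helper62.CU
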